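import Mathlib

/-!
# Jets of very well-covered uniform clutters

For every `d ≥ 3` there is a very well-covered `d`-uniform clutter `C` such that for every `s ≥ 1`
the clutter `J_s(C)` of `s`-jets has a minimal vertex cover with fewer than `(s+1)|X|/d` elements.
-/

open Finset

namespace Pool.Agent.Results.MP_4ee39a_co.JetsFail

variable {V : Type}

/-- `E` is the edge set of a clutter: no edge is contained in another one. -/
def IsClutter (E : Finset (Finset V)) : Prop := ∀ e ∈ E, ∀ f ∈ E, e ⊆ f → e = f

/-- All edges have exactly `d` elements. -/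
def IsUniform (d : ℕ) (E : Finset (Finset V)) : Prop := ∀ e ∈ E, e.card = d

/-- `W` is a vertex cover: it meets every edge. -/
def IsCover (E : Finset (Finset V)) (W : Finset V) : Prop := ∀ e ∈ E, ∃ x ∈ e, x ∈ W

/-- `W` is a minimal vertex cover: a vertex cover no proper subset of which is a vertex cover. -/
def IsMinCover (E : Finset (Finset V)) (W : Finset V) : Prop :=
  IsCover E W ∧ ∀ W' ⊂ W, ¬ IsCover E W'

/-- A `d`-uniform clutter on the vertex set `V` is very well-covered: every minimal vertex cover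
has exactly `|V| / d` elements. -/
def VeryWellCovered [Fintype V] (d : ℕ) (E : Finset (Finset V)) : Prop :=
  IsClutter E ∧ IsUniform d E ∧ ∀ W, IsMinCover E W → d * W.card = Fintype.card V

/-- The edges of the clutter of `s`-jets, on the vertex set `V × {0, ..., s}` (the vertex `(x, j)`
stands for `x_j`): all sets `{(x, i x) : x ∈ e}` with `e` an edge and `∑_{x ∈ e} i x ≤ s`. -/
def jets [Fintype V] [DecidableEq V] (s : ℕ) (E : Finset (Finset V)) :
    Finset (Finset (V × Fin (s + 1))) :=
  ((E ×ˢ (univ : Finset (V → Fin (s + 1)))).filter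
    (fun p => ∑ x ∈ p.1, (p.2 x : ℕ) ≤ s)).image (fun p => p.1.image (fun x => (x, p.2 x)))

/-- The edge `{x_1, ..., x_d}` (`x_i` is `(i, false)` and `x_i'` is `(i, true)`). -/
def e0 (d : ℕ) : Finset (Fin d × Bool) := univ.image (fun i => (i, false))

/-- The edge obtained from `{x_1, ..., x_d}` by replacing `x_i` by `x_i'`. -/
def e1 (d : ℕ) (i : Fin d) : Finset (Fin d × Bool) := univ.image (fun j => (j, decide (j = i)))

/-- The clutter with these `d + 1` edges. -/
def Ed (d : ℕ) : Finset (Finset (Fin d × Bool)) := insert (e0 d) (univ.image (e1 d))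

lemma mem_e0 {d : ℕ} (j : Fin d) (b : Bool) : (j, b) ∈ e0 d ↔ b = false := by
  simp only [e0, mem_image, mem_univ, true_and, Prod.mk.injEq]
  constructor
  · rintro ⟨a, -, h⟩; exact h.symm
  · intro h; exact ⟨j, rfl, h.symm⟩

lemma mem_e1 {d : ℕ} (i j : Fin d) (b : Bool) : (j, b) ∈ e1 d i ↔ b = decide (j = i) := by
  simp only [e1, mem_image, mem_univ, true_and, Prod.mk.injEq]
  constructor
  · rintro ⟨a, rfl, h⟩; exact h.symm
  · intro h; exact ⟨j, rfl, h.symm⟩

lemma mem_Ed {d : ℕ} (e : Finset (Fin d × Bool)) : e ∈ Ed d ↔ e = e0 d ∨ ∃ i, e = e1 d i := by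
  simp only [Ed, mem_insert, mem_image, mem_univ, true_and]
  constructor
  · rintro (h | ⟨i, h⟩)
    · exact Or.inl h
    · exact Or.inr ⟨i, h.symm⟩
  · rintro (h | ⟨i, h⟩)
    · exact Or.inl h
    · exact Or.inr ⟨i, h.symm⟩

lemma uniform_Ed (d : ℕ) : IsUniform d (Ed d) := by
  intro e he
  rcases (mem_Ed e).1 he with rfl | ⟨i, rfl⟩
  · rw [e0, card_image_of_injective _ (fun a b h => (Prod.ext_iff.1 h).1)]
    simp
  · rw [e1, card_image_of_injective _ (fun a b h => (Prod.ext_iff.1 h).1)]
    simp

lemma clutter_of_uniform (d : ℕ) (E : Finset (Finset V)) (h : IsUniform d E) : IsClutter E := by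
  intro e he f hf hef
  exact eq_of_subset_of_card_le hef (by rw [h e he, h f hf])

lemma veryWellCovered_Ed (d : ℕ) : VeryWellCovered d (Ed d) := by
  refine ⟨clutter_of_uniform d _ (uniform_Ed d), uniform_Ed d, ?_⟩
  intro W hW
  have hcardV : Fintype.card (Fin d × Bool) = d * 2 := by simp
  rw [hcardV]
  congr 1
  -- a subset of `W` that is a cover is all of `W`
  have hmin : ∀ W' ⊆ W, IsCover (Ed d) W' → W' = W := by
    intro W' h1 h2
    by_contra hne
    exact hW.2 W' (ssubset_of_subset_of_ne h1 hne) h2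
  obtain ⟨⟨i, b⟩, h1, h2⟩ := hW.1 (e0 d) ((mem_Ed _).2 (Or.inl rfl))
  rw [mem_e0] at h1
  subst h1
  by_cases hj : ∃ j, j ≠ i ∧ (j, false) ∈ W
  · obtain ⟨j, hji, hjW⟩ := hj
    have h3 := hmin {(i, false), (j, false)} (by
      intro x hx
      simp only [mem_insert, mem_singleton] at hx
      rcases hx with rfl | rfl
      · exact h2
      · exact hjW) (by
      intro e he
      rcases (mem_Ed e).1 he with rfl | ⟨k, rfl⟩
      · exact ⟨(i, false), (mem_e0 _ _).2 rfl, by simp⟩
      · by_cases hik : i = k
        · subst hik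
          exact ⟨(j, false), (mem_e1 _ _ _).2 (by simp [hji]), by simp⟩
        · exact ⟨(i, false), (mem_e1 _ _ _).2 (by simp [hik]), by simp⟩)
    rw [← h3]
    apply card_pair
    intro h
    exact hji (Prod.ext_iff.1 h).1.symm
  · push Not at hj
    obtain ⟨⟨j, b⟩, h4, h5⟩ := hW.1 (e1 d i) ((mem_Ed _).2 (Or.inr ⟨i, rfl⟩))
    rw [mem_e1] at h4
    have hji : j = i := by
      by_contra hne
      have : b = false := by rw [h4]; simp [hne]
      subst this
      exact hj j hne h5
    subst hji
    have hb : b = true := by rw [h4]; simp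
    subst hb
    have h3 := hmin {(j, false), (j, true)} (by
      intro x hx
      simp only [mem_insert, mem_singleton] at hx
      rcases hx with rfl | rfl
      · exact h2
      · exact h5) (by
      intro e he
      rcases (mem_Ed e).1 he with rfl | ⟨k, rfl⟩
      · exact ⟨(j, false), (mem_e0 _ _).2 rfl, by simp⟩
      · by_cases hik : j = k
        · subst hik
          exact ⟨(j, true), (mem_e1 _ _ _).2 (by simp), by simp⟩
        · exact ⟨(j, false), (mem_e1 _ _ _).2 (by simp [hik]), by simp⟩)
    rw [← h3]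
    apply card_pair
    simp

/-- Every vertex cover contains a minimal one. -/
lemma exists_minCover (E : Finset (Finset V)) (W : Finset V) (h : IsCover E W) :
    ∃ W' ⊆ W, IsMinCover E W' := by
  obtain ⟨W', h1, h2⟩ := exists_minimal_le_of_wellFoundedLT (IsCover E) W h
  refine ⟨W', h1, h2.prop, ?_⟩
  intro W'' h3 h4
  exact h3.2 (h2.le_of_le h4 h3.1)

/-- **Jets of very well-covered uniform clutters need not be very well-covered.** For every
`d ≥ 3` there is a very well-covered `d`-uniform clutter (on `2 d` vertices, with `d + 1` edges)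
such that for every `s ≥ 1` the clutter of its `s`-jets has a minimal vertex cover `W` with
`|W| < (s + 1) |X| / d`; so it is not very well-covered. -/
theorem result (d : ℕ) (hd : 3 ≤ d) :
    ∃ E : Finset (Finset (Fin d × Bool)), VeryWellCovered d E ∧
      ∀ s : ℕ, 1 ≤ s → ∃ W : Finset ((Fin d × Bool) × Fin (s + 1)),
        IsMinCover (jets s E) W ∧ d * W.card < (s + 1) * Fintype.card (Fin d × Bool) := by
  classical
  refine ⟨Ed d, veryWellCovered_Ed d, ?_⟩
  intro s hs
  let a0 : Fin d := ⟨0, by omega⟩
  let a1 : Fin d := ⟨1, by omega⟩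
  let a2 : Fin d := ⟨2, by omega⟩
  -- the cover
  let S : Fin d → ℕ → Finset ((Fin d × Bool) × Fin (s + 1)) := fun a m =>
    (univ.filter (fun j : Fin (s + 1) => (j : ℕ) < m)).image (fun j => ((a, false), j))
  have hScard : ∀ a m, (S a m).card ≤ m := by
    intro a m
    refine card_image_le.trans ?_
    have : (univ.filter (fun j : Fin (s + 1) => (j : ℕ) < m)).card ≤ (range m).card := by
      apply card_le_card_of_injOn (fun j : Fin (s + 1) => (j : ℕ))
      · intro j hj
        simpa using hj
      · intro j _ j' _ h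
        exact Fin.ext h
    simpa using this
  have hSmem : ∀ a m (j : Fin (s + 1)), (j : ℕ) < m → ((a, false), j) ∈ S a m := by
    intro a m j hj
    exact mem_image.2 ⟨j, by simpa using hj, rfl⟩
  let W0 := S a0 ((s + 2) / 2) ∪ S a1 ((s + 2) / 2) ∪ S a2 ((s + 1) / 2)
  have hW0 : IsCover (jets s (Ed d)) W0 := by
    intro F hF
    simp only [jets, mem_image, mem_filter, mem_product, mem_univ, and_true, Prod.exists] at hF
    obtain ⟨e, i, ⟨he, hsum⟩, rfl⟩ := hF
    by_contra hcon
    push Not at hcon
    have g0 : (a0, false) ∈ e → (s + 2) / 2 ≤ (i (a0, false) : ℕ) := by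
      intro h
      by_contra hlt
      push Not at hlt
      exact hcon ((a0, false), i (a0, false)) (mem_image.2 ⟨_, h, rfl⟩)
        (mem_union_left _ (mem_union_left _ (hSmem _ _ _ hlt)))
    have g1 : (a1, false) ∈ e → (s + 2) / 2 ≤ (i (a1, false) : ℕ) := by
      intro h
      by_contra hlt
      push Not at hlt
      exact hcon ((a1, false), i (a1, false)) (mem_image.2 ⟨_, h, rfl⟩)
        (mem_union_left _ (mem_union_right _ (hSmem _ _ _ hlt)))
    have g2 : (a2, false) ∈ e → (s + 1) / 2 ≤ (i (a2, false) : ℕ) := by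
      intro h
      by_contra hlt
      push Not at hlt
      exact hcon ((a2, false), i (a2, false)) (mem_image.2 ⟨_, h, rfl⟩)
        (mem_union_right _ (hSmem _ _ _ hlt))
    -- two base vertices in the edge
    have two : ∀ x y : Fin d × Bool, x ≠ y → x ∈ e → y ∈ e → (i x : ℕ) + (i y : ℕ) ≤ s := by
      intro x y hxy hx hy
      refine le_trans ?_ hsum
      have hsub : ({x, y} : Finset (Fin d × Bool)) ⊆ e := by
        intro z hz
        simp only [mem_insert, mem_singleton] at hz
        rcases hz with rfl | rfl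
        · exact hx
        · exact hy
      have h1 := sum_le_sum_of_subset (f := fun x => (i x : ℕ)) hsub
      rwa [sum_pair hxy] at h1
    have n01 : a0 ≠ a1 := by simp [a0, a1]
    have n02 : a0 ≠ a2 := by simp [a0, a2]
    have n12 : a1 ≠ a2 := by simp [a1, a2]
    have hcase : ((a0, false) ∈ e ∧ (a1, false) ∈ e) ∨ ((a0, false) ∈ e ∧ (a2, false) ∈ e) ∨
        ((a1, false) ∈ e ∧ (a2, false) ∈ e) := by
      rcases (mem_Ed e).1 he with rfl | ⟨k, rfl⟩
      · left; exact ⟨(mem_e0 _ _).2 rfl, (mem_e0 _ _).2 rfl⟩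
      · have hm : ∀ a : Fin d, a ≠ k → (a, false) ∈ e1 d k := by
          intro a ha
          rw [mem_e1]; simp [ha]
        by_cases h0 : a0 = k
        · right; right
          exact ⟨hm _ (by rw [← h0]; exact n01.symm), hm _ (by rw [← h0]; exact n02.symm)⟩
        · by_cases h1 : a1 = k
          · right; left
            exact ⟨hm _ h0, hm _ (by rw [← h1]; exact n12.symm)⟩
          · left
            exact ⟨hm _ h0, hm _ h1⟩
    rcases hcase with ⟨h1, h2⟩ | ⟨h1, h2⟩ | ⟨h1, h2⟩
    · have := two _ _ (by simp [n01]) h1 h2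
      have := g0 h1; have := g1 h2
      omega
    · have := two _ _ (by simp [n02]) h1 h2
      have := g0 h1; have := g2 h2
      omega
    · have := two _ _ (by simp [n12]) h1 h2
      have := g1 h1; have := g2 h2
      omega
  obtain ⟨W, hW1, hW2⟩ := exists_minCover _ _ hW0
  refine ⟨W, hW2, ?_⟩
  have h1 : W.card ≤ W0.card := card_le_card hW1
  have h2 : W0.card ≤ (s + 2) / 2 + (s + 2) / 2 + (s + 1) / 2 := by
    refine (card_union_le _ _).trans ?_
    have h3 := card_union_le (S a0 ((s + 2) / 2)) (S a1 ((s + 2) / 2))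
    have h4 := hScard a0 ((s + 2) / 2)
    have h5 := hScard a1 ((s + 2) / 2)
    have h6 := hScard a2 ((s + 1) / 2)
    omega
  have h3 : W.card < (s + 1) * 2 := by omega
  have h4 : Fintype.card (Fin d × Bool) = d * 2 := by simp
  rw [h4]
  calc d * W.card < d * ((s + 1) * 2) := Nat.mul_lt_mul_of_pos_left h3 (by omega)
    _ = (s + 1) * (d * 2) := by ring

end Pool.Agent.Results.MP_4ee39a_co.JetsFail
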